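import Mathlib

set_option autoImplicit false

namespace Pool.Agent.Results.MP_8ae111_al.JordanCex

/-- derived series of an additive subgroup `S`: `S`, `S S`, `(S S)(S S)`, ... -/
def der {A : Type} [NonUnitalNonAssocRing A] (S : AddSubgroup A) : ℕ → AddSubgroup A
  | 0 => S
  | k + 1 => AddSubgroup.closure {z | ∃ x ∈ der S k, ∃ y ∈ der S k, z = x * y}

def Solvable {A : Type} [NonUnitalNonAssocRing A] (S : AddSubgroup A) : Prop := ∃ n, der S n = ⊥

/-- the fixed subring of a group of automorphisms -/
def fixed {A : Type} [NonUnitalNonAssocRing A] (G : Subgroup (RingAut A)) : AddSubgroup A where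
  carrier := {a | ∀ g ∈ G, g a = a}
  zero_mem' g _ := map_zero g
  add_mem' hx hy g hg := by rw [map_add, hx g hg, hy g hg]
  neg_mem' hx g hg := by rw [map_neg, hx g hg]

def A : Type := ZMod 2 × ZMod 2 × ZMod 2

instance : AddCommGroup A := inferInstanceAs (AddCommGroup (ZMod 2 × ZMod 2 × ZMod 2))
instance : Fintype A := inferInstanceAs (Fintype (ZMod 2 × ZMod 2 × ZMod 2))
instance : DecidableEq A := inferInstanceAs (DecidableEq (ZMod 2 × ZMod 2 × ZMod 2))
instance : Mul A := ⟨fun x y => (x.2.1 * y.2.2 + x.2.2 * y.2.1, x.2.2 * y.1 + x.1 * y.2.2,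
  x.1 * y.2.1 + x.2.1 * y.1)⟩

instance : NonUnitalNonAssocRing A where
  left_distrib := by decide +kernel
  right_distrib := by decide +kernel
  zero_mul := by decide +kernel
  mul_zero := by decide +kernel

def g : RingAut A where
  toFun x := (x.2.1, x.2.2, x.1)
  invFun x := (x.2.2, x.1, x.2.1)
  left_inv _ := rfl
  right_inv _ := rfl
  map_mul' := by decide +kernel
  map_add' _ _ := rfl

theorem ord : orderOf g = 3 := by
  haveI : Fact (Nat.Prime 3) := ⟨by norm_num⟩
  refine orderOf_eq_prime (by ext x; rfl) fun h => ?_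
  have := congrArg (fun e : RingAut A => e ((1, 0, 0) : ZMod 2 × ZMod 2 × ZMod 2)) h
  revert this
  decide +kernel

/-- A Jordan ring (also satisfying the fully linearized Jordan identity) with a finite group `G`
of automorphisms, no `|G|`-torsion and solvable fixed ring, that is not solvable. -/
theorem result : ∃ (A : Type) (_ : NonUnitalNonAssocRing A) (G : Subgroup (RingAut A)),
    Finite G ∧ (∀ x y : A, x * y = y * x) ∧ (∀ x y : A, x * x * y * x = x * x * (y * x)) ∧
    (∀ a b c y : A, a * b * y * c + b * c * y * a + c * a * y * b =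
      a * b * (y * c) + b * c * (y * a) + c * a * (y * b)) ∧
    (∀ a : A, Nat.card G • a = 0 → a = 0) ∧ Solvable (fixed G) ∧
    ¬ Solvable (⊤ : AddSubgroup A) := by
  refine ⟨A, inferInstance, Subgroup.zpowers g, ?_, by decide +kernel, by decide +kernel,
    by decide +kernel, ?_, ⟨1, ?_⟩, ?_⟩
  · exact Nat.finite_of_card_ne_zero (by rw [Nat.card_zpowers, ord]; norm_num)
  · rw [Nat.card_zpowers, ord]
    decide +kernel
  · rw [der, AddSubgroup.closure_eq_bot_iff]
    rintro _ ⟨x, hx, y, hy, rfl⟩
    have h1 := hx g (Subgroup.mem_zpowers g)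
    have h2 := hy g (Subgroup.mem_zpowers g)
    have : ∀ x y : A, g x = x → g y = y → x * y = 0 := by decide +kernel
    exact this x y h1 h2
  · rintro ⟨n, hn⟩
    have : ∀ k, der (⊤ : AddSubgroup A) k = ⊤ := by
      intro k
      induction k with
      | zero => rfl
      | succ k ih =>
        rw [der, ih, eq_top_iff]
        intro z _
        have : ∀ z : A, ∃ x y : A, z = x * y := by decide +kernel
        obtain ⟨x, y, h⟩ := this z
        exact AddSubgroup.subset_closure ⟨x, trivial, y, trivial, h⟩
    rw [this] at hn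
    have : ∀ z : A, z = 0 := fun z => AddSubgroup.mem_bot.mp (hn ▸ trivial)
    revert this
    decide +kernel

end Pool.Agent.Results.MP_8ae111_al.JordanCex
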